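import Pool.Agent.Helper55.EC.Lim
import Pool.Agent.Helper55.EC.GenFib
import Pool.Agent.Helper15.EC.EInj
import Pool.Agent.Helper5.EC.Diamond

/-!
# Project EC, module B5: the multiplicity of the limit at the nodes
-/

set_option autoImplicit false

namespace Pool.Agent.Helper51.EC

open Polynomial TensorProduct Pool.Agent.Helper34.EC

noncomputable section

/-! ### The diagonal specialisation -/

/-- Specialisation of both variables to the same variable. -/
def diag (P : Type) [CommRing P] : PowerSeries (PowerSeries P) →+* PowerSeries P where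
  toFun f := PowerSeries.mk fun w => ∑ p ∈ Finset.HasAntidiagonal.antidiagonal w,
    PowerSeries.coeff p.1 (PowerSeries.coeff p.2 f)
  map_zero' := by ext; simp
  map_one' := by
    ext w
    rw [PowerSeries.coeff_mk, PowerSeries.coeff_one]
    split_ifs with h
    · subst h
      simp
    · apply Finset.sum_eq_zero
      intro p hp
      have h1 : p.1 + p.2 = w := Finset.HasAntidiagonal.mem_antidiagonal.mp hp
      rw [PowerSeries.coeff_one]
      split_ifs with h2
      · rw [PowerSeries.coeff_one, if_neg]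
        omega
      · rw [map_zero]
  map_add' := by
    intro f h
    ext
    simp [Finset.sum_add_distrib]
  map_mul' := by
    intro f h
    ext w
    simp only [PowerSeries.coeff_mk, PowerSeries.coeff_mul, map_sum]
    simp only [Finset.sum_mul_sum]
    rw [Finset.sum_sigma', Finset.sum_sigma', Finset.sum_sigma', Finset.sum_sigma']
    refine Finset.sum_bij'
      (fun x _ => ⟨⟨(x.2.1 + x.1.2.1, x.2.2 + x.1.2.2), (x.2.1, x.1.2.1)⟩, (x.2.2, x.1.2.2)⟩)
      (fun x _ => ⟨⟨(x.1.2.1 + x.2.1, x.1.2.2 + x.2.2), (x.1.2.2, x.2.2)⟩, (x.1.2.1, x.2.1)⟩)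
      ?_ ?_ ?_ ?_ ?_
    · rintro ⟨⟨⟨a, b⟩, ⟨c, d⟩⟩, ⟨e, f'⟩⟩ hx
      simp only [Finset.mem_sigma, Finset.HasAntidiagonal.mem_antidiagonal] at hx ⊢
      obtain ⟨⟨h1, h2⟩, h3⟩ := hx
      exact ⟨⟨by omega, trivial⟩, trivial⟩
    · rintro ⟨⟨⟨a, b⟩, ⟨c, d⟩⟩, ⟨e, f'⟩⟩ hx
      simp only [Finset.mem_sigma, Finset.HasAntidiagonal.mem_antidiagonal] at hx ⊢
      obtain ⟨⟨h1, h2⟩, h3⟩ := hx
      exact ⟨⟨by omega, trivial⟩, trivial⟩
    · rintro ⟨⟨⟨a, b⟩, ⟨c, d⟩⟩, ⟨e, f'⟩⟩ hx
      simp only [Finset.mem_sigma, Finset.HasAntidiagonal.mem_antidiagonal] at hx ⊢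
      obtain ⟨⟨h1, h2⟩, h3⟩ := hx
      subst h3 h2
      rfl
    · rintro ⟨⟨⟨a, b⟩, ⟨c, d⟩⟩, ⟨e, f'⟩⟩ hx
      simp only [Finset.mem_sigma, Finset.HasAntidiagonal.mem_antidiagonal] at hx ⊢
      obtain ⟨⟨h1, h2⟩, h3⟩ := hx
      subst h3 h2
      rfl
    · rintro ⟨⟨⟨a, b⟩, ⟨c, d⟩⟩, ⟨e, f'⟩⟩ hx
      rfl

theorem coeff_diag {P : Type} [CommRing P] (f : PowerSeries (PowerSeries P)) (w : ℕ) :
    PowerSeries.coeff w (diag P f) = ∑ p ∈ Finset.HasAntidiagonal.antidiagonal w,
      PowerSeries.coeff p.1 (PowerSeries.coeff p.2 f) := by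
  change PowerSeries.coeff w (PowerSeries.mk fun w =>
    ∑ p ∈ Finset.HasAntidiagonal.antidiagonal w,
      PowerSeries.coeff p.1 (PowerSeries.coeff p.2 f)) = _
  rw [PowerSeries.coeff_mk]

variable {k : Type} [Field k]

/-- The substitution `x ↦ s a`, `y ↦ s b`. -/
def psi (a b : k[X][X]) : PowerSeries (PowerSeries k) →+* PowerSeries k[X][X] :=
  ((diag k[X][X]).comp (PowerSeries.rescale (PowerSeries.C b))).comp
    (PowerSeries.map ((PowerSeries.rescale a).comp (PowerSeries.map (C.comp C))))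

theorem coeff_psi (a b : k[X][X]) (f : PowerSeries (PowerSeries k)) (w : ℕ) :
    PowerSeries.coeff w (psi a b f) = ∑ p ∈ Finset.HasAntidiagonal.antidiagonal w,
      C (C (PowerSeries.coeff p.1 (PowerSeries.coeff p.2 f))) * (a ^ p.1 * b ^ p.2) := by
  rw [psi, RingHom.comp_apply, RingHom.comp_apply, coeff_diag]
  apply Finset.sum_congr rfl
  intro p _
  have h1 : PowerSeries.coeff p.2 ((PowerSeries.rescale (PowerSeries.C b))
      ((PowerSeries.map ((PowerSeries.rescale a).comp (PowerSeries.map (C.comp C)))) f)) =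
      PowerSeries.C (b ^ p.2) * PowerSeries.rescale a (PowerSeries.map (C.comp C)
        (PowerSeries.coeff p.2 f)) := by
    rw [PowerSeries.coeff_rescale, map_pow, PowerSeries.coeff_map, RingHom.comp_apply]
  rw [h1, PowerSeries.coeff_C_mul, PowerSeries.coeff_rescale, PowerSeries.coeff_map,
    RingHom.comp_apply]
  ring

/-- `s X ^ 2 Y`, `s Y`. -/
def psi1 : PowerSeries (PowerSeries k) →+* PowerSeries k[X][X] := psi (C X ^ 2 * X) X

/-- `s X`, `s X Y ^ 2`. -/
def psi2 : PowerSeries (PowerSeries k) →+* PowerSeries k[X][X] := psi (C X) (C X * X ^ 2)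

theorem coeff_psi1 (f : PowerSeries (PowerSeries k)) (w : ℕ) :
    PowerSeries.coeff w (psi1 f) = ∑ p ∈ Finset.HasAntidiagonal.antidiagonal w,
      C (C (PowerSeries.coeff p.1 (PowerSeries.coeff p.2 f))) *
        (C X ^ (2 * p.1) * X ^ (p.1 + p.2)) := by
  rw [psi1, coeff_psi]
  apply Finset.sum_congr rfl
  intro p _
  ring

theorem coeff_psi2 (f : PowerSeries (PowerSeries k)) (w : ℕ) :
    PowerSeries.coeff w (psi2 f) = ∑ p ∈ Finset.HasAntidiagonal.antidiagonal w,
      C (C (PowerSeries.coeff p.1 (PowerSeries.coeff p.2 f))) *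
        (C X ^ (p.1 + p.2) * X ^ (2 * p.2)) := by
  rw [psi2, coeff_psi]
  apply Finset.sum_congr rfl
  intro p _
  ring

/-- `X ↦ T⁻¹`, `Y ↦ T`. -/
def th : k[X][X] →+* LaurentPolynomial k :=
  eval₂RingHom (eval₂RingHom LaurentPolynomial.C (LaurentPolynomial.T (-1)))
    (LaurentPolynomial.T 1)

theorem th_key : th (C X * X - 1 : k[X][X]) = 0 := by
  have h : (LaurentPolynomial.T (-1) : LaurentPolynomial k) *
      LaurentPolynomial.T 1 = 1 := by
    rw [← LaurentPolynomial.T_add]; simp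
  rw [th, map_sub, map_mul, map_one]
  simp only [coe_eval₂RingHom, eval₂_C, eval₂_X]
  rw [h, sub_self]

theorem th_mon (a : k) (i j : ℕ) : th (C (C a) * (C X ^ i * X ^ j) : k[X][X]) =
    LaurentPolynomial.C a * LaurentPolynomial.T ((j : ℤ) - i) := by
  rw [th, map_mul, map_mul, map_pow, map_pow]
  simp only [coe_eval₂RingHom, eval₂_C, eval₂_X]
  rw [LaurentPolynomial.T_pow, LaurentPolynomial.T_pow, ← LaurentPolynomial.T_add]
  congr 2
  ring

theorem laurent_coeff_sum {ι : Type} (s : Finset ι) (F : ι → LaurentPolynomial k) (δ : ℤ) :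
    (∑ i ∈ s, F i).coeff δ = ∑ i ∈ s, (F i).coeff δ := by
  classical
  induction s using Finset.induction_on with
  | empty => simp
  | insert i s hi ih =>
    rw [Finset.sum_insert hi, Finset.sum_insert hi, AddMonoidAlgebra.coeff_add,
      Finsupp.add_apply, ih]

theorem th_ne {f : PowerSeries (PowerSeries k)} {m n : ℕ}
    (h : PowerSeries.coeff m (PowerSeries.coeff n f) ≠ 0) :
    ∑ p ∈ Finset.HasAntidiagonal.antidiagonal (m + n),
      LaurentPolynomial.C (PowerSeries.coeff p.1 (PowerSeries.coeff p.2 f)) *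
        LaurentPolynomial.T ((p.2 : ℤ) - p.1) ≠ 0 := by
  intro h0
  apply h
  have h1 := congrArg (fun F : LaurentPolynomial k => F.coeff ((n : ℤ) - m)) h0
  simp only [AddMonoidAlgebra.coeff_zero, Finsupp.zero_apply] at h1
  rw [laurent_coeff_sum, Finset.sum_eq_single (m, n)] at h1
  · rw [← LaurentPolynomial.single_eq_C_mul_T, AddMonoidAlgebra.coeff_single,
      Finsupp.single_apply, if_pos rfl] at h1
    exact h1
  · intro p hp hne
    have h2 : p.1 + p.2 = m + n := Finset.HasAntidiagonal.mem_antidiagonal.mp hp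
    rw [← LaurentPolynomial.single_eq_C_mul_T, AddMonoidAlgebra.coeff_single,
      Finsupp.single_apply, if_neg]
    intro h3
    apply hne
    ext
    · simp only
      omega
    · simp only
      omega
  · intro h2
    exact (h2 (by simp)).elim

theorem th_coeff_psi1 (f : PowerSeries (PowerSeries k)) (w : ℕ) :
    th (PowerSeries.coeff w (psi1 f)) = ∑ p ∈ Finset.HasAntidiagonal.antidiagonal w,
      LaurentPolynomial.C (PowerSeries.coeff p.1 (PowerSeries.coeff p.2 f)) *
        LaurentPolynomial.T ((p.2 : ℤ) - p.1) := by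
  rw [coeff_psi1, map_sum]
  apply Finset.sum_congr rfl
  intro p _
  rw [th_mon]
  congr 2
  push_cast
  ring

theorem th_coeff_psi2 (f : PowerSeries (PowerSeries k)) (w : ℕ) :
    th (PowerSeries.coeff w (psi2 f)) = ∑ p ∈ Finset.HasAntidiagonal.antidiagonal w,
      LaurentPolynomial.C (PowerSeries.coeff p.1 (PowerSeries.coeff p.2 f)) *
        LaurentPolynomial.T ((p.2 : ℤ) - p.1) := by
  rw [coeff_psi2, map_sum]
  apply Finset.sum_congr rfl
  intro p _
  rw [th_mon]
  congr 2
  push_cast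
  ring

theorem prime_xi : Prime (C X * X - 1 : k[X][X]) := by
  apply Irreducible.prime
  apply irreducible_of_degree_eq_one_of_isRelPrime_coeff
  · have h : (C X * X - 1 : k[X][X]) = C X * X + C (-1) := by
      rw [map_neg, map_one, sub_eq_add_neg]
    rw [h]
    exact degree_linear X_ne_zero
  · apply IsUnit.isRelPrime_left
    rw [coeff_sub, coeff_C_mul, coeff_X_zero, mul_zero, coeff_one_zero, zero_sub]
    exact isUnit_one.neg

/-- The prime. -/
def xi (k : Type) [Field k] : PowerSeries k[X][X] := PowerSeries.C (C X * X - 1)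

theorem prime_xi' : Prime (xi k) := Helper55.EC.prime_C_powerSeries prime_xi

theorem exists_coeff {f : PowerSeries (PowerSeries k)} (hf : f ≠ 0) :
    ∃ m n, PowerSeries.coeff m (PowerSeries.coeff n f) ≠ 0 := by
  by_contra! h
  apply hf
  ext n m
  rw [h, map_zero, map_zero]

theorem not_dvd1 {f : PowerSeries (PowerSeries k)} (hf : f ≠ 0) : ¬ xi k ∣ psi1 f := by
  obtain ⟨m, n, h⟩ := exists_coeff hf
  rintro ⟨q, hq⟩
  have h1 := congrArg (fun F => th (PowerSeries.coeff (m + n) F)) hq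
  rw [th_coeff_psi1, xi, PowerSeries.coeff_C_mul, map_mul, th_key, zero_mul] at h1
  exact th_ne h h1

theorem not_dvd2 {f : PowerSeries (PowerSeries k)} (hf : f ≠ 0) : ¬ xi k ∣ psi2 f := by
  obtain ⟨m, n, h⟩ := exists_coeff hf
  rintro ⟨q, hq⟩
  have h1 := congrArg (fun F => th (PowerSeries.coeff (m + n) F)) hq
  rw [th_coeff_psi2, xi, PowerSeries.coeff_C_mul, map_mul, th_key, zero_mul] at h1
  exact th_ne h h1

theorem dvd_of_coeff {R : Type} [CommRing R] {p : R} {f : PowerSeries R}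
    (h : ∀ n, p ∣ PowerSeries.coeff n f) : PowerSeries.C p ∣ f := by
  choose q hq using h
  exact ⟨PowerSeries.mk q, by ext n; rw [PowerSeries.coeff_C_mul, PowerSeries.coeff_mk, hq]⟩

theorem dvd_pow_sub (m n : ℕ) :
    (C X * X - 1 : k[X][X]) ∣ (C X * X) ^ m - (C X * X) ^ n := by
  have h : ∀ m : ℕ, (C X * X - 1 : k[X][X]) ∣ (C X * X) ^ m - 1 := by
    intro m
    have := sub_dvd_pow_sub_pow (C X * X : k[X][X]) 1 m
    rwa [one_pow] at this
  have h2 := dvd_sub (h m) (h n)
  rwa [sub_sub_sub_cancel_right] at h2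

theorem dvd_psi_sub (f : PowerSeries (PowerSeries k)) : xi k ∣ psi1 f - psi2 f := by
  apply dvd_of_coeff
  intro w
  rw [map_sub, coeff_psi1, coeff_psi2, ← Finset.sum_sub_distrib]
  apply Finset.dvd_sum
  intro p _
  have h : (C (C (PowerSeries.coeff p.1 (PowerSeries.coeff p.2 f))) *
        (C X ^ (2 * p.1) * X ^ (p.1 + p.2)) : k[X][X]) -
      C (C (PowerSeries.coeff p.1 (PowerSeries.coeff p.2 f))) *
        (C X ^ (p.1 + p.2) * X ^ (2 * p.2)) =
      (C (C (PowerSeries.coeff p.1 (PowerSeries.coeff p.2 f))) * (C X ^ p.1 * X ^ p.2)) *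
        ((C X * X) ^ p.1 - (C X * X) ^ p.2) := by ring
  rw [h]
  exact Dvd.dvd.mul_left (dvd_pow_sub _ _) _

/-! ### The coefficients of products -/

theorem coeff_mon (a : k) (i j i' j' : ℕ) :
    ((C (C a) * (C X ^ i * X ^ j) : k[X][X]).coeff j').coeff i' =
      if j' = j ∧ i' = i then a else 0 := by
  have h : (C (C a) * (C X ^ i * X ^ j) : k[X][X]) = C (C a * X ^ i) * X ^ j := by
    rw [map_mul, map_pow]; ring
  rw [h, coeff_C_mul_X_pow]
  by_cases h1 : j' = j
  · rw [if_pos h1, coeff_C_mul_X_pow]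
    by_cases h2 : i' = i
    · rw [if_pos h2, if_pos ⟨h1, h2⟩]
    · rw [if_neg h2, if_neg fun h => h2 h.2]
  · rw [if_neg h1, if_neg fun h => h1 h.1, coeff_zero]

/-- The polynomials supported in the diamond. -/
def Dm (k : Type) [Field k] (w : ℕ) : AddSubmonoid k[X][X] where
  carrier := {H | ∀ i j : ℕ, ¬ (|(i : ℤ) - w| + |(j : ℤ) - w| ≤ w) → (H.coeff j).coeff i = 0}
  zero_mem' := by intro i j _; simp
  add_mem' := by
    intro f h hf hh i j hij
    rw [coeff_add, coeff_add, hf i j hij, hh i j hij, add_zero]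

theorem coeff_prod (F G : PowerSeries (PowerSeries k)) (w : ℕ) :
    PowerSeries.coeff w (psi1 F * psi2 G) = ∑ x ∈ Finset.HasAntidiagonal.antidiagonal w,
      ∑ p ∈ Finset.HasAntidiagonal.antidiagonal x.1, ∑ q ∈ Finset.HasAntidiagonal.antidiagonal x.2,
        C (C (PowerSeries.coeff p.1 (PowerSeries.coeff p.2 F) *
          PowerSeries.coeff q.1 (PowerSeries.coeff q.2 G))) *
          (C X ^ (2 * p.1 + (q.1 + q.2)) * X ^ (p.1 + p.2 + 2 * q.2)) := by
  rw [PowerSeries.coeff_mul]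
  apply Finset.sum_congr rfl
  intro x _
  rw [coeff_psi1, coeff_psi2, Finset.sum_mul_sum]
  apply Finset.sum_congr rfl
  intro p _
  apply Finset.sum_congr rfl
  intro q _
  rw [map_mul, map_mul]
  ring

theorem coeff_prod_mem (F G : PowerSeries (PowerSeries k)) (w : ℕ) :
    PowerSeries.coeff w (psi1 F * psi2 G) ∈ Dm k w := by
  rw [coeff_prod]
  apply sum_mem
  intro x hx
  apply sum_mem
  intro p hp
  apply sum_mem
  intro q hq
  have h1 : x.1 + x.2 = w := Finset.HasAntidiagonal.mem_antidiagonal.mp hx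
  have h2 : p.1 + p.2 = x.1 := Finset.HasAntidiagonal.mem_antidiagonal.mp hp
  have h3 : q.1 + q.2 = x.2 := Finset.HasAntidiagonal.mem_antidiagonal.mp hq
  intro i j hij
  rw [coeff_mon, if_neg]
  rintro ⟨rfl, rfl⟩
  apply hij
  have h4 : (((2 * p.1 + (q.1 + q.2) : ℕ) : ℤ) - w) = (p.1 : ℤ) - p.2 := by
    push_cast; omega
  have h5 : (((p.1 + p.2 + 2 * q.2 : ℕ) : ℤ) - w) = (q.2 : ℤ) - q.1 := by
    push_cast; omega
  rw [h4, h5]
  rcases abs_cases ((p.1 : ℤ) - p.2) with h6 | h6 <;>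
    rcases abs_cases ((q.2 : ℤ) - q.1) with h7 | h7 <;> omega

theorem coeff_coeff_sum {ι : Type} (s : Finset ι) (F : ι → k[X][X]) (i j : ℕ) :
    ((∑ l ∈ s, F l).coeff j).coeff i = ∑ l ∈ s, ((F l).coeff j).coeff i := by
  rw [finsetSum_coeff, finsetSum_coeff]

theorem coeff_prod_corner (F G : PowerSeries (PowerSeries k)) (a b : ℕ) :
    ((PowerSeries.coeff (a + b) (psi1 F * psi2 G)).coeff (a + 2 * b)).coeff (2 * a + b) =
      PowerSeries.coeff a (PowerSeries.coeff 0 F) *
        PowerSeries.coeff 0 (PowerSeries.coeff b G) := by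
  have h0 : ∀ x ∈ Finset.HasAntidiagonal.antidiagonal (a + b),
      ∀ p ∈ Finset.HasAntidiagonal.antidiagonal x.1,
      ∀ q ∈ Finset.HasAntidiagonal.antidiagonal x.2,
      (a + 2 * b = p.1 + p.2 + 2 * q.2 ∧ 2 * a + b = 2 * p.1 + (q.1 + q.2)) →
      x = (a, b) ∧ p = (a, 0) ∧ q = (0, b) := by
    intro x hx p hp q hq h
    have h1 : x.1 + x.2 = a + b := Finset.HasAntidiagonal.mem_antidiagonal.mp hx
    have h2 : p.1 + p.2 = x.1 := Finset.HasAntidiagonal.mem_antidiagonal.mp hp
    have h3 : q.1 + q.2 = x.2 := Finset.HasAntidiagonal.mem_antidiagonal.mp hq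
    refine ⟨Prod.ext ?_ ?_, Prod.ext ?_ ?_, Prod.ext ?_ ?_⟩ <;> simp only <;> omega
  rw [coeff_prod, coeff_coeff_sum, Finset.sum_eq_single (a, b)]
  · rw [coeff_coeff_sum, Finset.sum_eq_single (a, 0)]
    · rw [coeff_coeff_sum, Finset.sum_eq_single (0, b)]
      · rw [coeff_mon, if_pos]
        constructor <;> simp only <;> omega
      · intro q hq hne
        rw [coeff_mon, if_neg]
        intro h
        exact hne (h0 (a, b) (Finset.HasAntidiagonal.mem_antidiagonal.mpr rfl) (a, 0)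
          (Finset.HasAntidiagonal.mem_antidiagonal.mpr (by simp)) q hq h).2.2
      · intro h
        exact absurd (Finset.HasAntidiagonal.mem_antidiagonal.mpr (by simp)) h
    · intro p hp hne
      rw [coeff_coeff_sum]
      apply Finset.sum_eq_zero
      intro q hq
      rw [coeff_mon, if_neg]
      intro h
      exact hne (h0 (a, b) (Finset.HasAntidiagonal.mem_antidiagonal.mpr rfl) p hp q hq h).2.1
    · intro h
      exact absurd (Finset.HasAntidiagonal.mem_antidiagonal.mpr (by simp)) h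
  · intro x hx hne
    rw [coeff_coeff_sum]
    apply Finset.sum_eq_zero
    intro p hp
    rw [coeff_coeff_sum]
    apply Finset.sum_eq_zero
    intro q hq
    rw [coeff_mon, if_neg]
    intro h
    exact hne (h0 x hx p hp q hq h).1
  · intro h
    exact (h (by simp)).elim

/-! ### Multiplicities -/

theorem coeff_sh_C_mul_map (a b : k) (P Q : k[X]) (i j : ℕ) :
    ((sh a b (C P * Q.map C)).coeff j).coeff i =
      (taylor a P).coeff i * (taylor b Q).coeff j := by
  have h1 : (Q.map C).map (taylorAlgHom a : k[X] →ₐ[k] k[X]).toRingHom = Q.map C := by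
    rw [Polynomial.map_map]
    congr 1
    ext x
    simp
  have h2 : taylor (C b) (Q.map C) = (taylor b Q).map (C : k →+* k[X]) := by
    rw [map_taylor]
  have h3 : sh a b (C P * Q.map C) = C (taylor a P) * (taylor b Q).map C := by
    rw [sh, RingHom.comp_apply, coe_mapRingHom, Polynomial.map_mul, Polynomial.map_C, h1]
    change taylorAlgHom (C b) _ = _
    rw [map_mul]
    change taylor (C b) (C _) * taylor (C b) (Q.map C) = _
    rw [taylor_C, h2]
    rfl
  rw [h3, coeff_C_mul, coeff_map, coeff_mul_C]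

theorem multGe_of {g : ℕ} (c : Pts k g) {ι : Type} (s : Finset ι) (u v : ι → c.A)
    (b : c.AF) (hb : b ≠ 0) (γ : ℕ)
    (hx : (b ⊗ₜ[LaurentSeries k] b) * ∑ l ∈ s,
      ((1 : LaurentSeries k) ⊗ₜ[PowerSeries k] (u l) : c.AF) ⊗ₜ[LaurentSeries k]
        ((1 : LaurentSeries k) ⊗ₜ[PowerSeries k] (v l) : c.AF) ∈
          (KaehlerDifferential.ideal (LaurentSeries k) c.AF) ^ γ) (e e' : Fin g × Bool)
    (hsw : ∀ (f : c.A) (b : ℕ), PowerSeries.coeff 0 (PowerSeries.coeff b (EE c.c e (c.ps f))) =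
      PowerSeries.coeff b (PowerSeries.coeff 0 (EE c.c e' (c.ps f)))) :
    MultGe γ (c.c e) (c.c e') (c.red s u v) := by
  have hne : ∀ f : c.A, f ≠ 0 → EE c.c e (c.ps f) ≠ 0 := by
    intro f hf h
    apply hf
    apply c.ps_injective
    apply Helper15.EC.EE_injective c.c c.inj e
    rw [h, map_zero, map_zero]
  have hd : xi k ^ γ ∣ ∑ l ∈ s, (psi1.comp ((EE c.c e).comp c.ps)) (u l) *
      (psi2.comp ((EE c.c e).comp c.ps)) (v l) := by
    refine Helper55.EC.lim (R := PowerSeries k) (F := LaurentSeries k) (Helper55.EC.jj c)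
      (Helper55.EC.jj_injective c) (Helper55.EC.jj_surj c) _ _ (xi k) prime_xi' ?_ ?_ ?_ ?_ γ
      s u v b hb ?_
    · intro r
      simp only [RingHom.comp_apply]
      rw [c.ps_algebraMap]
      ext1 w
      rw [coeff_psi1, coeff_psi2]
      apply Finset.sum_congr rfl
      intro p _
      rw [coeff_EE_io c.c c.inj, PowerSeries.coeff_mul_C, PowerSeries.coeff_X_pow]
      by_cases h : p.1 = p.2
      · rw [h]
        ring
      · rw [if_neg h, zero_mul, map_zero, map_zero, zero_mul, zero_mul]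
    · intro f hf
      exact not_dvd1 (hne f hf)
    · intro f hf
      exact not_dvd2 (hne f hf)
    · intro f
      exact dvd_psi_sub _
    · exact hx
  intro i j hij
  have h1 : ∀ w, (C X * X - 1 : k[X][X]) ^ γ ∣ PowerSeries.coeff w
      (∑ l ∈ s, psi1 (EE c.c e (c.ps (u l))) * psi2 (EE c.c e (c.ps (v l)))) := by
    intro w
    obtain ⟨q, hq⟩ := hd
    refine ⟨PowerSeries.coeff w q, ?_⟩
    rw [← PowerSeries.coeff_C_mul, map_pow]
    exact congrArg (PowerSeries.coeff w) hq
  have h2 : PowerSeries.coeff (i + j)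
      (∑ l ∈ s, psi1 (EE c.c e (c.ps (u l))) * psi2 (EE c.c e (c.ps (v l)))) = 0 := by
    apply Helper5.EC.diamond hij _ _ (h1 _)
    intro i' j' hne'
    by_contra h3
    apply hne'
    have h4 : PowerSeries.coeff (i + j)
        (∑ l ∈ s, psi1 (EE c.c e (c.ps (u l))) * psi2 (EE c.c e (c.ps (v l)))) ∈
          Dm k (i + j) := by
      rw [map_sum]
      exact sum_mem fun l _ => coeff_prod_mem _ _ _
    exact h4 i' j' h3
  have h5 := congrArg (fun H : k[X][X] => (H.coeff (i + 2 * j)).coeff (2 * i + j)) h2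
  simp only [coeff_zero] at h5
  rw [map_sum, coeff_coeff_sum] at h5
  rw [Pts.red, map_sum, coeff_coeff_sum, ← h5]
  apply Finset.sum_congr rfl
  intro l _
  rw [coeff_prod_corner, coeff_sh_C_mul_map, hsw, coeff_EE, coeff_EE, pow_zero, one_mul, pow_zero,
    one_mul]
  have h6 : ∀ (a : k) (P : k[X]) (n : ℕ), PowerSeries.coeff n (TT a P) = (taylor a P).coeff n := by
    intro a P n
    change PowerSeries.coeff n ((taylor a P : k[X]) : PowerSeries k) = _
    rw [Polynomial.coeff_coe]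
  rw [h6, h6]

section B

variable {g : ℕ} (c : Pts k g) {ι : Type} (s : Finset ι) (u v : ι → c.A)
  (b : c.AF) (hb : b ≠ 0) (γ : ℕ)
  (hx : (b ⊗ₜ[LaurentSeries k] b) * ∑ l ∈ s,
    ((1 : LaurentSeries k) ⊗ₜ[PowerSeries k] (u l) : c.AF) ⊗ₜ[LaurentSeries k]
      ((1 : LaurentSeries k) ⊗ₜ[PowerSeries k] (v l) : c.AF) ∈
        (KaehlerDifferential.ideal (LaurentSeries k) c.AF) ^ γ)

include hb hx

/-- EC-B5 -/
theorem node_mult (i : Fin g) : MultGe γ (c.c (i, false)) (c.c (i, true)) (c.red s u v) ∧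
    MultGe γ (c.c (i, true)) (c.c (i, false)) (c.red s u v) := by
  constructor
  · apply multGe_of c s u v b hb γ hx
    intro f n
    have h := ((mem_AA c.c _).1 (c.ps_mem f)).1 i
    rw [← h, coeff_swap]
  · apply multGe_of c s u v b hb γ hx
    intro f n
    have h := ((mem_AA c.c _).1 (c.ps_mem f)).1 i
    rw [← h, coeff_swap]

end B

end

end Pool.Agent.Helper51.EC
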